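import Pool.Agent.H45.Free
import Pool.Agent.H45.Shift

/-!
# A projective polynormed module over `O(ℂ∖{0})` that is not free

The Banach space is `E = c₀ × ℓ²` and `T` is the invertible operator that shifts forward on `c₀` and
backward on `ℓ²`.  The module consists of the entire functions `f : ℂ → E` with
`f (z + 1) = T (f z)`, on which `g ∈ O(ℂ∖{0})` acts by multiplication by `g (exp (2πiz))`.

* It is projective: the entire kernel `K(s) = ∑ₘ c(s - m) Tᵐ` with `K(0) = 1` and
  `K(s + 1) = T K(s)` splits every `f` into components `ξₙ f` with `f = ∑ₙ wⁿ ξₙ f`, which decay fast
  enough for `ρ f = ∑ₙ wⁿ σ (ξₙ f)` to converge and to be a morphism of modules.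
* If it were free, then `T` would be joined to the identity by a path of invertible operators.
  This is impossible: every operator from `c₀` to `ℓ²` is compact, so that the compression to `c₀` is
  multiplicative modulo compact operators, while the compression of `T` is injective and not
  surjective.
-/

set_option autoImplicit false

namespace Pool.Agent.Results.MP_978236_an.NotFree

open Pool.Agent.H45

universe u v

/-- Over the algebra of holomorphic functions on the punctured plane there is a projective
polynormed (even metrizable) module that is not free. -/
theorem result : IsOpen Cstar ∧ IsConnected Cstar ∧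
    ∃ (X : Type) (_ : AddCommGroup X) (_ : Module ℂ X) (_ : UniformSpace X)
      (_ : Module (Hol Cstar) X) (_ : PolynormedModule Cstar X),
      TopologicalSpace.MetrizableSpace X ∧ IsProjective.{u} Cstar X ∧ ¬ IsFree.{v} Cstar X := by
  refine ⟨isOpen_Cstar, isConnected_Cstar, QP shiftU, inferInstance, inferInstance, inferInstance,
    inferInstance, inferInstance, ?_, isProjective_QP shiftU, fun h => ?_⟩
  · have : TopologicalSpace.MetrizableSpace C(ℂ, Czero × Ltwo) := inferInstance
    exact Topology.IsEmbedding.subtypeVal.metrizableSpace
  · obtain ⟨A, hA, hu, h0, h1⟩ := exists_path_of_isFree h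
    exact no_path A hA hu h0 h1

end Pool.Agent.Results.MP_978236_an.NotFree
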